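import Pool.Agent.H892Z.Ell.Main

set_option autoImplicit false

namespace Pool.Agent.Results.MP_64ff02_ag.AReflectionThree

open Pool.Agent.H892Z.Ell

/-- Projective varieties cut out by forms of total degree at most the number of variables and
invariant under a complex reflection of order three are not pseudo-Brody hyperbolic. -/
theorem result (N k : ℕ) (hN : 3 ≤ N) (F : Fin k → MvPolynomial (Fin N) ℂ) (d : Fin k → ℕ)
    (hF : ∀ j, (F j).IsHomogeneous (d j)) (hd : ∑ j, d j ≤ N)
    (σ : Module.End ℂ (Fin N → ℂ)) (hσ : IsReflection 3 σ)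
    (hσF : ∀ j x, MvPolynomial.eval (σ x) (F j) = MvPolynomial.eval x (F j))
    (hirr : IsZariskiIrreducible (zeroSet (Set.range F)))
    (hnd : IsNondegenerate (zeroSet (Set.range F))) :
    ¬ IsPseudoBrodyHyperbolic (zeroSet (Set.range F)) :=
  refl_three hN F d hF hd σ hσ hσF hirr hnd

end Pool.Agent.Results.MP_64ff02_ag.AReflectionThree
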